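import Pool.Agent.Y564.Mah.Main

/-!
# Measures on complete Boolean algebras from countably generated subalgebras
-/

set_option autoImplicit false

namespace Pool.Agent.Results.MP_2d6919_lc.AdmitsMeasure

open Pool.Agent.Y564.Mah

universe u

/-- Let `B` be a complete Boolean algebra which carries a continuous outer measure (so `B` is
automatically ccc). If every countably generated complete subalgebra of `B` admits a measure, then
`B` admits a measure. -/
theorem result {B : Type u} [CompleteBooleanAlgebra B]
    (hsub : ∀ L : BooleanSubalgebra B, IsCountablyGenerated L → ∃ μ : L → ℝ, IsMeasure μ)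
    (hm : ∃ m : B → ℝ, IsContinuousOuterMeasure m) :
    ∃ μ : B → ℝ, IsMeasure μ :=
  maharam hsub hm

end Pool.Agent.Results.MP_2d6919_lc.AdmitsMeasure
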